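import Pool.Agent.MP_d5eec5_gt.H77.GBasic
import Pool.Agent.MP_d5eec5_gt.H48.Runs

/-! Deletion of full turns around the vertex `0`. -/

set_option autoImplicit false

namespace Pool.Agent.MP_d5eec5_gt.H77

open Pool.Agent.MP_d5eec5_gt.H48 Finset

theorem kf_vg (τ η : Fin 3) (w : Wd) : VG τ η w ↔ w[0]? = some (τ + 1) ∧
    w[w.length - 1]? = some (η + 1) ∧ ∀ i, i + 1 < w.length → w[i]? ≠ w[i + 1]? := by
  unfold VG
  rw [List.head?_eq_getElem?, List.getLast?_eq_getElem?, List.isChain_iff_getElem]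
  refine and_congr Iff.rfl (and_congr Iff.rfl (forall_congr' fun i => ?_))
  constructor
  · intro h hi
    rw [List.getElem?_eq_getElem (by omega), List.getElem?_eq_getElem hi]
    exact fun e => h hi (Option.some.inj e)
  · intro h hi e
    apply h hi
    rw [List.getElem?_eq_getElem (by omega), List.getElem?_eq_getElem hi, e]

variable {τ η : Fin 3} {w : Wd} {j : ℕ}

theorem kf_alt (hw : VG τ η w) {l : ℕ} (h : St 1 w j l) {i : ℕ} (h0 : j ≤ i)
    (hi : i + 2 < j + l) : w[i + 2]? = w[i]? := by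
  have h1 := h.1
  have c := ((kf_vg τ η w).1 hw).2.2
  obtain ⟨i, rfl⟩ := Nat.exists_eq_add_of_le h0
  exact (third' (b := w[j + i + 1]?) (d := 1) (nn (by omega)) (nn (by omega)) (nn (by omega))
    (c _ (by omega)) (h.2.2 i (by omega)) (h.2.2 (i + 1) (by omega))
    (c (j + i + 1) (by omega)).symm (h.2.2 (i + 2) (by omega))).symm

theorem kf_ge (hw : VG τ η w) (h : St 1 w j 3) {i : ℕ} (hi : j ≤ i) :
    (del 1 j w)[i]? = w[i + 2]? := by
  rcases hi.eq_or_lt with rfl | hi
  · rw [del_le h.1 le_rfl, kf_alt hw h le_rfl (by omega)]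
  · exact del_gt h.1 hi

theorem kf_del (hw : VG τ η w) {l : ℕ} (h : St 1 w j (l + 3)) :
    VG τ η (del 1 j w) ∧ St 1 (del 1 j w) j (l + 1) := by
  have h3 : St 1 w j 3 := h.mono (by omega)
  have hl := del_len (s := 1) h3.1
  have h1 := h.1
  obtain ⟨a, b, c⟩ := (kf_vg τ η w).1 hw
  refine ⟨(kf_vg τ η _).2 ⟨by rw [del_le h3.1 (Nat.zero_le _), a], ?_, fun i hi => ?_⟩,
    by omega, ?_, fun i hi => ?_⟩
  · rw [kf_ge hw h3 (by omega), ← b]
    congr 1
    omega
  · rcases lt_or_ge i j with hp | hp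
    · rw [del_le h3.1 hp.le, del_le h3.1 hp]
      exact c i (by omega)
    · rw [kf_ge hw h3 hp, kf_ge hw h3 (by omega)]
      exact c _ (by omega)
  · rw [del_le h3.1 (Nat.sub_le _ _)]
    exact h.2.1
  · rw [kf_ge hw h3 (by omega)]
    exact h.2.2 (i + 2) (by omega)

theorem kf_ins (hw : VG τ η w) (h : St 1 w j 3) {i : ℕ} {x : Fin 3}
    (hi : InRun (del 1 j w) j (i + 1)) (hx : (del 1 j w)[i]? = some x) :
    insAt (i + 1) x (del 1 j w) = w := by
  have hl := del_len (s := 1) h.1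
  have h1 := hi.1
  have h2 := hi.le
  have hs : St 1 w j (i + 3 - j) := by
    refine ⟨by omega, h.2.1, fun t ht => ?_⟩
    rcases lt_or_ge t 3 with h3 | h3
    · exact h.2.2 t h3
    · rw [show j + t = j + t - 2 + 2 by omega, ← kf_ge hw h (by omega)]
      exact hi.ne_one (by omega) (by omega)
  rw [kf_ge hw h (by omega)] at hx
  have e : w[i + 1]? = some (2 - x) := by
    have a1 := hs.2.2 (i + 1 - j) (by omega)
    have a2 := hs.2.2 (i + 2 - j) (by omega)
    have a3 := ((kf_vg τ η w).1 hw).2.2 (i + 1) (by omega)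
    rw [show j + (i + 1 - j) = i + 1 by omega] at a1
    rw [show j + (i + 2 - j) = i + 2 by omega] at a2
    obtain ⟨y, hy⟩ := ex_some (w := w) (i := i + 1) (by omega)
    rw [hx] at a2 a3
    rw [hy] at a1 a3 ⊢
    clear hx hy
    revert x y
    decide
  have hlen : ((del 1 j w).take (i + 1)).length = i + 1 := by
    rw [List.length_take]; omega
  refine List.ext_getElem? fun t => ?_
  unfold insAt
  rcases lt_or_ge t (i + 1) with ht | ht
  · rw [List.append_assoc, List.getElem?_append_left (by omega), List.getElem?_take_of_lt ht]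
    rcases le_total t j with h3 | h3
    · exact del_le h.1 h3
    · rw [kf_ge hw h h3, kf_alt hw hs h3 (by omega)]
  · obtain ⟨t, rfl⟩ := Nat.exists_eq_add_of_le ht
    rw [List.append_assoc, List.getElem?_append_right (by omega), hlen, Nat.add_sub_cancel_left]
    rcases t with _ | _ | t
    · exact e.symm
    · exact hx.symm
    · rw [List.cons_append, List.cons_append, List.nil_append, List.getElem?_cons_succ,
        List.getElem?_cons_succ, List.getElem?_drop, kf_ge hw h (by omega)]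
      rfl

theorem kf_conc (g0 : StmtG0) (hd : StmtDel) (hi : StmtIns) (hne : τ ≠ η) (hw : VG τ η w)
    (h : St 1 w j 5) :
    IG τ η (del 1 j (del 1 j w)) + IG τ η w ≤ 2 * IG τ η (del 1 j w) := by
  have h3 : St 1 w j 3 := h.mono (by omega)
  obtain ⟨y1, y2⟩ := kf_del hw (l := 2) h
  obtain ⟨p, hp, e⟩ := g0.1 τ η (del 1 j w) hne
  obtain ⟨u, v, p', i, k, t1, t2, t3, -, -, t4, t5, t6⟩ := hd τ η _ p j y1 hp y2
  obtain ⟨i, rfl⟩ : ∃ i', i = i' + 1 := ⟨i - 1, by have := t4.1; omega⟩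
  obtain ⟨x, hx⟩ := ex_some (w := del 1 j w) (i := i) t4.le
  obtain ⟨q, -, -, -, s1, s2, -⟩ := hi τ η _ p u v i x hp t1 hx t5 t6
  rw [kf_ins hw h3 t4 hx] at s1
  have a1 := IG_le s1
  have a2 := IG_le t2
  rw [← show (del 1 j w).length + 2 = w.length from del_len (s := 1) h3.1] at a1
  omega

theorem kf_iter (g0 : StmtG0) (hd : StmtDel) (hi : StmtIns) (hne : τ ≠ η) (d s : ℕ) :
    ∀ w : Wd, VG τ η w → St 1 w j (2 * s + 3) → IG τ η (del 1 j w) + d ≤ IG τ η w →
      IG τ η (del (s + 1) j w) + (s + 1) * d ≤ IG τ η w := by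
  induction s with
  | zero => intro w _ _ h; simpa using h
  | succ s ih =>
    intro w hw hs h
    obtain ⟨y1, y2⟩ := kf_del hw (l := 2 * s + 2) hs
    have c := kf_conc g0 hd hi hne hw (hs.mono (by omega))
    have := ih _ y1 y2 (by omega)
    rw [del_del (by have := hs.1; omega)] at this
    rw [add_mul (s + 1), one_mul]
    omega

theorem kf_of : StmtG0 → StmtDel → StmtKap → StmtIns → StmtKF := by
  intro g0 hd hk hi τ η w s S hne hw hs hS
  obtain ⟨s, rfl⟩ : ∃ s', s = s' + 1 := ⟨s - 1, by omega⟩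
  obtain ⟨p, hp, e⟩ := g0.1 τ η w hne
  have key : ∀ j, ∃ (u v : ℚ) (k : ℕ), j ∈ S → InRun w j k ∧ p k = u ∧
      IG τ η (del 1 j w) + 2 * (met u v w p).card ≤ IG τ η w + 1 := by
    intro j
    by_cases hj : j ∈ S
    · obtain ⟨u, v, p', i, k, t1, t2, t3, t4, t5, -⟩ :=
        hd τ η w p j hw hp ((hS j hj).mono (by omega))
      have a1 := IG_le t2
      have a2 := hk τ η w p u v hw hp t1
      exact ⟨u, v, k, fun _ => ⟨t4, t5, by omega⟩⟩
    · exact ⟨0, 0, 0, fun h => absurd h hj⟩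
  choose u v k h using key
  have hm : ∀ j ∈ S, ∀ j', u j ≤ u j' → j ∈ met (u j') (v j') w p := fun j hj j' hu =>
    mem_met.2 ⟨k j, (h j hj).1, Or.inl ((h j hj).2.1.le.trans hu)⟩
  refine ⟨fun j j' => (s + 1) * if j' ∈ met (u j) (v j) w p then 1 else 0,
    fun j hj j' hj' _ => ?_, fun j hj => ?_⟩
  · rcases le_total (u j) (u j') with hu | hu
    · simp only [if_pos (hm j hj j' hu)]; omega
    · simp only [if_pos (hm j' hj' j hu)]; omega
  · have c1 : ((S.erase j).filter fun j' => j' ∈ met (u j) (v j) w p).card ≤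
        ((met (u j) (v j) w p).erase j).card := card_le_card fun a ha =>
      mem_erase.2 ⟨(mem_erase.1 (mem_filter.1 ha).1).1, (mem_filter.1 ha).2⟩
    have c2 := card_erase_add_one (hm j hj j le_rfl)
    have c3 := (h j hj).2.2
    have := kf_iter g0 hd hi hne
      (1 + ((S.erase j).filter fun j' => j' ∈ met (u j) (v j) w p).card) s w hw (hS j hj) (by omega)
    rw [← mul_sum, ← card_filter]
    rw [mul_add] at this
    omega

end Pool.Agent.MP_d5eec5_gt.H77
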